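import Pool.Agent.H109.GW.A3
import Pool.Agent.H109.GW.XA1
import Pool.Agent.H109.GW.XB1
import Pool.Agent.H109.GW.XC1
import Pool.Agent.H109.GW.XA2
import Pool.Agent.H109.GW.XB2
import Pool.Agent.H109.GW.XC2
import Pool.Agent.H109.GW.AB
import Pool.Agent.H109.GW.A1
import Pool.Agent.H109.GW.A2
import Pool.Agent.H109.GW.ev
import Pool.Agent.H109.GW.C1a
import Pool.Agent.H109.GW.C1b
import Pool.Agent.H109.GW.C2a
import Pool.Agent.H109.GW.C2b
import Pool.Agent.H109.GW.uniq

set_option autoImplicit false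

/-!
# Fishburn permutations avoiding `3214`, `4132`, `4213` are equinumerous

The three classes are generated by appending a last value; each generating tree is described by the
sizes of blocks of active sites. The trees of `3214` and `4213` have the same number of nodes at
every depth by a direct induction. The generating functions of the trees of `3214` and `4132` satisfy
the same functional equation with one catalytic variable, which has only one solution.
-/

namespace Pool.Agent.Results.MP_e853da_co.GilWeinerTriple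

open Finset Pool.Agent.R121 Pool.Agent.R121.Fish Pool.Agent.H109.GW

attribute [local instance 10] Classical.propDecidable

/-- `π` contains the classical pattern `σ`: some subsequence of `π` is order-isomorphic to `σ`. -/
def Contains {k n : ℕ} (π : Equiv.Perm (Fin n)) (σ : Equiv.Perm (Fin k)) : Prop :=
  ∃ f : Fin k ↪o Fin n, ∀ a b : Fin k, σ a < σ b ↔ π (f a) < π (f b)

/-- `π` is a Fishburn permutation: there are no indices `i` and `j > i + 1` with
`π(j) < π(i) < π(i+1)` and `π(i) = π(j) + 1`. -/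
def IsFishburn {n : ℕ} (π : Equiv.Perm (Fin n)) : Prop :=
  ¬ ∃ (i j : Fin n) (h : (i : ℕ) + 1 < n), (i : ℕ) + 1 < j ∧ π j < π i ∧
    π i < π ⟨(i : ℕ) + 1, h⟩ ∧ (π i : ℕ) = (π j : ℕ) + 1

/-- The set of the Fishburn permutations of size `n` which avoid `σ`. -/
def F (n : ℕ) {k : ℕ} (σ : Equiv.Perm (Fin k)) : Set (Equiv.Perm (Fin n)) :=
  {π | IsFishburn π ∧ ¬ Contains π σ}

/-- The pattern `3214` (with values `0, …, 3`). -/
def p3214 : Equiv.Perm (Fin 4) := ⟨![2, 1, 0, 3], ![2, 1, 0, 3], by decide, by decide⟩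

/-- The pattern `4132` (with values `0, …, 3`). -/
def p4132 : Equiv.Perm (Fin 4) := ⟨![3, 0, 2, 1], ![1, 3, 2, 0], by decide, by decide⟩

/-- The pattern `4213` (with values `0, …, 3`). -/
def p4213 : Equiv.Perm (Fin 4) := ⟨![3, 1, 0, 2], ![2, 1, 3, 0], by decide, by decide⟩

lemma fishburn_iff {n : ℕ} (π : Equiv.Perm (Fin n)) : IsFishburn π ↔ Fsh π := by
  constructor
  · intro H i j k h1 h2 ⟨h3, h4⟩
    apply H
    have h5 : (i : ℕ) + 1 < n := by
      rw [← h1]
      exact j.2
    have h6 : (⟨(i : ℕ) + 1, h5⟩ : Fin n) = j := Fin.ext h1.symm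
    refine ⟨i, k, h5, ?_, ?_, ?_, h3.symm⟩
    · rw [← h1]
      exact h2
    · rw [Fin.lt_def]
      omega
    · rw [h6, Fin.lt_def]
      exact h4
  · rintro H ⟨i, j, h, h1, h2, h3, h4⟩
    exact H i ⟨(i : ℕ) + 1, h⟩ j rfl h1 ⟨h4.symm, h3⟩

lemma contains_of {n : ℕ} (π : Equiv.Perm (Fin n)) (σ : Equiv.Perm (Fin 4)) (i j k l : Fin n)
    (h1 : i < j) (h2 : j < k) (h3 : k < l)
    (H : ∀ a b : Fin 4, σ a < σ b → π (![i, j, k, l] a) < π (![i, j, k, l] b)) :
    Contains π σ := by
  have hm : StrictMono ![i, j, k, l] := by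
    rw [Fin.strictMono_iff_lt_succ]
    intro a
    fin_cases a
    · exact h1
    · exact h2
    · exact h3
  refine ⟨OrderEmbedding.ofStrictMono _ hm, ?_⟩
  intro a b
  constructor
  · exact H a b
  · intro h
    by_contra h4
    rcases (not_lt.1 h4).lt_or_eq with h5 | h5
    · exact lt_asymm h (H b a h5)
    · have := σ.injective h5
      subst this
      exact lt_irrefl _ h

lemma contains_to {n : ℕ} (π : Equiv.Perm (Fin n)) (σ : Equiv.Perm (Fin 4)) (h : Contains π σ) :
    ∃ f : Fin 4 → Fin n, StrictMono f ∧ ∀ a b : Fin 4, σ a < σ b → (π (f a) : ℕ) < π (f b) := by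
  obtain ⟨f, hf⟩ := h
  exact ⟨f, f.strictMono, fun a b hab => (hf a b).1 hab⟩

lemma av3214_iff {n : ℕ} (π : Equiv.Perm (Fin n)) : ¬ Contains π p3214 ↔ AvA π := by
  constructor
  · intro H i j k l h1 h2 h3 ⟨h4, h5, h6⟩
    apply H
    apply contains_of π p3214 i j k l h1 h2 h3
    intro a b hab
    rw [Fin.lt_def]
    fin_cases a <;> fin_cases b <;>
      first
        | exact absurd hab (by decide)
        | (simp only [Fin.zero_eta, Fin.mk_one, Fin.reduceFinMk, Matrix.cons_val]; omega)
  · intro H h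
    obtain ⟨f, hf, hf2⟩ := contains_to π _ h
    exact H (f 0) (f 1) (f 2) (f 3) (hf (by decide)) (hf (by decide)) (hf (by decide))
      ⟨hf2 2 1 (by decide), hf2 1 0 (by decide), hf2 0 3 (by decide)⟩

lemma av4132_iff {n : ℕ} (π : Equiv.Perm (Fin n)) : ¬ Contains π p4132 ↔ AvC π := by
  constructor
  · intro H i j k l h1 h2 h3 ⟨h4, h5, h6⟩
    apply H
    apply contains_of π p4132 i j k l h1 h2 h3
    intro a b hab
    rw [Fin.lt_def]
    fin_cases a <;> fin_cases b <;>
      first
        | exact absurd hab (by decide)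
        | (simp only [Fin.zero_eta, Fin.mk_one, Fin.reduceFinMk, Matrix.cons_val]; omega)
  · intro H h
    obtain ⟨f, hf, hf2⟩ := contains_to π _ h
    exact H (f 0) (f 1) (f 2) (f 3) (hf (by decide)) (hf (by decide)) (hf (by decide))
      ⟨hf2 1 3 (by decide), hf2 3 2 (by decide), hf2 2 0 (by decide)⟩

lemma av4213_iff {n : ℕ} (π : Equiv.Perm (Fin n)) : ¬ Contains π p4213 ↔ AvB π := by
  constructor
  · intro H i j k l h1 h2 h3 ⟨h4, h5, h6⟩
    apply H
    apply contains_of π p4213 i j k l h1 h2 h3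
    intro a b hab
    rw [Fin.lt_def]
    fin_cases a <;> fin_cases b <;>
      first
        | exact absurd hab (by decide)
        | (simp only [Fin.zero_eta, Fin.mk_one, Fin.reduceFinMk, Matrix.cons_val]; omega)
  · intro H h
    obtain ⟨f, hf, hf2⟩ := contains_to π _ h
    exact H (f 0) (f 1) (f 2) (f 3) (hf (by decide)) (hf (by decide)) (hf (by decide))
      ⟨hf2 2 1 (by decide), hf2 1 3 (by decide), hf2 3 0 (by decide)⟩

lemma ncard_F (n : ℕ) (σ : Equiv.Perm (Fin 4)) (V : (n : ℕ) → Equiv.Perm (Fin n) → Prop)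
    (h : ∀ π : Equiv.Perm (Fin (n + 1)), (IsFishburn π ∧ ¬ Contains π σ) ↔ V (n + 1) π) :
    ((F (n + 1) σ).ncard : ℤ) = cardV V n := by
  have h1 : F (n + 1) σ = ((univ.filter fun π : Equiv.Perm (Fin (n + 1)) => V (n + 1) π :
      Finset (Equiv.Perm (Fin (n + 1)))) : Set (Equiv.Perm (Fin (n + 1)))) := by
    ext π
    simp only [F, Set.mem_setOf_eq, coe_filter, mem_univ, true_and]
    exact h π
  rw [h1, Set.ncard_coe_finset, cardV, card_filter]
  push_cast
  rfl

/-- **Gil–Weiner**: for every `n`, the numbers of the Fishburn permutations of size `n` which avoid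
`3214`, which avoid `4132`, and which avoid `4213` are equal. -/
theorem result (n : ℕ) : (F n p3214).ncard = (F n p4132).ncard ∧
    (F n p4132).ncard = (F n p4213).ncard := by
  cases n with
  | zero =>
    have h : ∀ σ : Equiv.Perm (Fin 4), F 0 σ = Set.univ := by
      intro σ
      ext π
      simp only [F, Set.mem_setOf_eq, Set.mem_univ, iff_true]
      constructor
      · rintro ⟨i, _⟩
        exact i.elim0
      · rintro ⟨f, _⟩
        exact (f 0).elim0
    rw [h, h, h]
    exact ⟨rfl, rfl⟩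
  | succ n =>
    have h1 := ncard_F n p3214 VA (fun π => by rw [fishburn_iff, av3214_iff]; rfl)
    have h2 := ncard_F n p4132 VC (fun π => by rw [fishburn_iff, av4132_iff]; rfl)
    have h3 := ncard_F n p4213 VB (fun π => by rw [fishburn_iff, av4213_iff]; rfl)
    rw [t_XA2 t_XA1 n] at h1
    rw [t_XC2 t_XC1 n, ← t_AC t_uniq (t_A3 t_ev (t_A2 t_A1)) (t_FEC t_C1a t_C1b t_C2a t_C2b) n] at h2
    rw [t_XB2 t_XB1 n, ← t_AB n] at h3
    constructor
    · exact_mod_cast h1.trans h2.symm
    · exact_mod_cast h2.trans h3.symm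

end Pool.Agent.Results.MP_e853da_co.GilWeinerTriple
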